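import Mathlib

/-!
# A local rule of density `c * k ^ (-3/2)` for odd `k` (MP_07f90a_co): admissibility

`lam : V → ℕ` labels the vertices with numbers `< N`, `cnt lam E j` is the number of elements of
`E` with label `< j` and `mu lam E i` the number of elements of `E` with label `i`.  A set `E` of odd
size is an edge (`Edge`) if

* no label occurs three times in `E`;
* `∑ j < N, ⌊cnt E j / 2⌋` is the prescribed residue `s` modulo `N`;
* for two labels `d`, `d'` occurring twice, `⌊cnt E d' / 2⌋ ≠ ⌊cnt E d / 2⌋ + 1`;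
* the sum of `1 + (⌊cnt E d / 2⌋ mod 2)` over the labels `d` occurring twice is the prescribed
  residue `a` modulo `3`;
* the sum of `c U` over the transversals `U` of the labels occurring twice is `1` modulo `2`.

`card_edges`: a set `S` of even size contains exactly `0` or exactly `2` elements `v` such that
`S.erase v` is an edge.
-/

set_option linter.unusedSectionVars false

namespace Pool.Agent.H56.ZK

open Finset

variable {V : Type*} [DecidableEq V] {lam : V → ℕ} {N : ℕ}

/-- the number of elements of `E` with label `< j` -/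
def cnt (lam : V → ℕ) (E : Finset V) (j : ℕ) : ℕ := (E.filter (fun v => lam v < j)).card

/-- the number of elements of `E` with label `i` -/
def mu (lam : V → ℕ) (E : Finset V) (i : ℕ) : ℕ := (E.filter (fun v => lam v = i)).card

lemma cnt_succ (E : Finset V) (j : ℕ) : cnt lam E (j + 1) = cnt lam E j + mu lam E j := by
  unfold cnt mu
  rw [← card_union_of_disjoint, ← filter_or]
  · congr 1
    apply filter_congr
    intro v _
    omega
  · rw [disjoint_filter]
    intro v _ h
    omega

lemma cnt_zero (E : Finset V) : cnt lam E 0 = 0 := by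
  simp [cnt]

lemma cnt_mono (E : Finset V) {i j : ℕ} (h : i ≤ j) : cnt lam E i ≤ cnt lam E j := by
  apply card_le_card
  intro v hv
  rw [mem_filter] at hv ⊢
  exact ⟨hv.1, by omega⟩

lemma cnt_top (h : ∀ v, lam v < N) (E : Finset V) : cnt lam E N = E.card := by
  unfold cnt
  rw [filter_true_of_mem]
  intro v _
  exact h v

lemma cnt_erase {S : Finset V} {v : V} (hv : v ∈ S) (j : ℕ) :
    cnt lam S j = cnt lam (S.erase v) j + (if lam v < j then 1 else 0) := by
  unfold cnt
  rw [filter_erase]
  by_cases h : lam v < j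
  · rw [if_pos h, card_erase_add_one]
    rw [mem_filter]
    exact ⟨hv, h⟩
  · rw [if_neg h, erase_eq_of_notMem]
    · rfl
    · rw [mem_filter]
      exact fun h' => h h'.2

lemma mu_erase {S : Finset V} {v : V} (hv : v ∈ S) (i : ℕ) :
    mu lam S i = mu lam (S.erase v) i + (if lam v = i then 1 else 0) := by
  unfold mu
  rw [filter_erase]
  by_cases h : lam v = i
  · rw [if_pos h, card_erase_add_one]
    rw [mem_filter]
    exact ⟨hv, h⟩
  · rw [if_neg h, erase_eq_of_notMem]
    · rfl
    · rw [mem_filter]
      exact fun h' => h h'.2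

lemma mu_pos {S : Finset V} {v : V} (hv : v ∈ S) : 1 ≤ mu lam S (lam v) := by
  rw [mu_erase hv, if_pos rfl]
  omega

lemma exists_of_mu {S : Finset V} {i : ℕ} (h : 1 ≤ mu lam S i) : ∃ v ∈ S, lam v = i := by
  obtain ⟨v, hv⟩ := card_pos.1 h
  rw [mem_filter] at hv
  exact ⟨v, hv.1, hv.2⟩

open Classical in
/-- transversals of the labels which occur twice in `E` -/
noncomputable def trans (lam : V → ℕ) (E : Finset V) : Finset (Finset V) :=
  E.powerset.filter (fun U => ∀ i, mu lam U i = if mu lam E i = 2 then 1 else 0)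

lemma mem_trans {E U : Finset V} :
    U ∈ trans lam E ↔ U ⊆ E ∧ ∀ i, mu lam U i = if mu lam E i = 2 then 1 else 0 := by
  classical
  simp [trans]

/-- the edges -/
structure Edge (lam : V → ℕ) (N : ℕ) (s : ZMod N) (a : ZMod 3) (c : Finset V → ZMod 2)
    (E : Finset V) : Prop where
  mult : ∀ i, mu lam E i ≤ 2
  sum : ((∑ j ∈ range N, cnt lam E j / 2 : ℕ) : ZMod N) = s
  adj : ∀ d d', mu lam E d = 2 → mu lam E d' = 2 → cnt lam E d' / 2 ≠ cnt lam E d / 2 + 1
  code : ((∑ d ∈ (range N).filter (fun d => mu lam E d = 2),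
    (1 + cnt lam E d / 2 % 2) : ℕ) : ZMod 3) = a
  cont : ∑ U ∈ trans lam E, c U = 1

variable {s : ZMod N} {a : ZMod 3} {c : Finset V → ZMod 2}

lemma Edge.congr {E E' : Finset V} (h : Edge lam N s a c E)
    (h1 : ∀ j, cnt lam E j / 2 = cnt lam E' j / 2)
    (h2 : ∀ i, mu lam E i = 2 ↔ mu lam E' i = 2) (h3 : ∀ i, mu lam E' i ≤ 2)
    (h4 : ∑ U ∈ trans lam E', c U = 1) : Edge lam N s a c E' := by
  refine ⟨h3, ?_, ?_, ?_, h4⟩
  · rw [← h.sum]
    congr 1
    exact sum_congr rfl fun j _ => (h1 j).symm
  · intro d d' hd hd'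
    rw [← h1, ← h1]
    exact h.adj d d' ((h2 d).2 hd) ((h2 d').2 hd')
  · rw [← h.code]
    congr 1
    have e : (range N).filter (fun d => mu lam E' d = 2) =
        (range N).filter (fun d => mu lam E d = 2) := by
      apply filter_congr
      intro d _
      exact (h2 d).symm
    rw [e]
    exact sum_congr rfl fun j _ => by rw [h1 j]

/-- If the counting function is odd between the labels of `v` and `v'` then removing `v` or `v'`
gives the same halved counting function. -/
lemma half_eq {S : Finset V} {v v' : V} (hv : v ∈ S) (hv' : v' ∈ S)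
    (h : ∀ j, lam v < j → j ≤ lam v' → cnt lam S j % 2 = 1) (h' : lam v ≤ lam v') (j : ℕ) :
    cnt lam (S.erase v) j / 2 = cnt lam (S.erase v') j / 2 := by
  have e1 := cnt_erase (lam := lam) hv j
  have e2 := cnt_erase (lam := lam) hv' j
  by_cases c1 : lam v < j
  · by_cases c2 : lam v' < j
    · rw [if_pos c1] at e1
      rw [if_pos c2] at e2
      omega
    · have := h j c1 (by omega)
      rw [if_pos c1] at e1
      rw [if_neg c2] at e2
      omega
  · rw [if_neg c1] at e1
    rw [if_neg (by omega)] at e2
    omega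

/-- If removing `v` or `v'` gives the same residue then the counting function is odd between
their labels. -/
lemma odd_between (hlam : ∀ v, lam v < N) {S : Finset V} {v v' : V} (hv : v ∈ S) (hv' : v' ∈ S)
    (h : ((∑ j ∈ range N, cnt lam (S.erase v) j / 2 : ℕ) : ZMod N) =
      ((∑ j ∈ range N, cnt lam (S.erase v') j / 2 : ℕ) : ZMod N)) (h' : lam v ≤ lam v') :
    ∀ j, lam v < j → j ≤ lam v' → cnt lam S j % 2 = 1 := by
  set f : ℕ → ℕ := fun j => cnt lam (S.erase v) j / 2 with hf
  set f' : ℕ → ℕ := fun j => cnt lam (S.erase v') j / 2 with hf'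
  have hle : ∀ j, f j ≤ f' j := by
    intro j
    have e1 := cnt_erase (lam := lam) hv j
    have e2 := cnt_erase (lam := lam) hv' j
    simp only [hf, hf']
    by_cases c1 : lam v < j
    · rw [if_pos c1] at e1
      split_ifs at e2 <;> omega
    · rw [if_neg c1] at e1
      rw [if_neg (by omega)] at e2
      omega
  have hle1 : ∀ j, f' j ≤ f j + (if j = 0 then 0 else 1) := by
    intro j
    have e1 := cnt_erase (lam := lam) hv j
    have e2 := cnt_erase (lam := lam) hv' j
    simp only [hf, hf']
    by_cases c0 : j = 0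
    · subst c0
      simp [cnt_zero]
    · rw [if_neg c0]
      split_ifs at e1 e2 <;> omega
  have hN : 0 < N := lt_of_le_of_lt (Nat.zero_le _) (hlam v)
  have hs1 : ∑ j ∈ range N, f j ≤ ∑ j ∈ range N, f' j := sum_le_sum fun j _ => hle j
  have hs2 : ∑ j ∈ range N, f' j ≤ ∑ j ∈ range N, f j + (N - 1) := by
    calc ∑ j ∈ range N, f' j ≤ ∑ j ∈ range N, (f j + (if j = 0 then 0 else 1)) :=
          sum_le_sum fun j _ => hle1 j
      _ = ∑ j ∈ range N, f j + ∑ j ∈ range N, (if j = 0 then 0 else 1) := sum_add_distrib
      _ = _ := by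
        congr 1
        obtain ⟨M, rfl⟩ : ∃ M, N = M + 1 := ⟨N - 1, by omega⟩
        rw [sum_range_succ']
        simp
  have heq : ∑ j ∈ range N, f j = ∑ j ∈ range N, f' j := by
    have h1 : ((∑ j ∈ range N, f' j : ℕ) : ZMod N) = ((∑ j ∈ range N, f j : ℕ) : ZMod N) := h.symm
    rw [ZMod.natCast_eq_natCast_iff'] at h1
    have h2 : N ∣ ∑ j ∈ range N, f' j - ∑ j ∈ range N, f j :=
      (Nat.modEq_iff_dvd' hs1).1 (h1.symm)
    have h3 := Nat.eq_zero_of_dvd_of_lt h2 (by omega)
    omega
  intro j hj1 hj2
  have hjN : j ∈ range N := by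
    rw [mem_range]
    exact lt_of_le_of_lt hj2 (hlam v')
  have h4 := (sum_eq_sum_iff_of_le (fun j _ => hle j)).1 heq j hjN
  have e1 := cnt_erase (lam := lam) hv j
  have e2 := cnt_erase (lam := lam) hv' j
  rw [if_pos hj1] at e1
  rw [if_neg (by omega)] at e2
  simp only [hf, hf'] at h4
  omega

/-- removing `v` or `v'` from `S` both give an edge: common halved counting function -/
lemma Edge.halves (hlam : ∀ v, lam v < N) {S : Finset V} {v v' : V} (hv : v ∈ S) (hv' : v' ∈ S)
    (h : Edge lam N s a c (S.erase v)) (h' : Edge lam N s a c (S.erase v')) (j : ℕ) :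
    cnt lam (S.erase v) j / 2 = cnt lam (S.erase v') j / 2 := by
  rcases le_total (lam v) (lam v') with h1 | h1
  · exact half_eq hv hv' (odd_between hlam hv hv' (h.sum.trans h'.sum.symm) h1) h1 j
  · exact (half_eq hv' hv (odd_between hlam hv' hv (h'.sum.trans h.sum.symm) h1) h1 j).symm

lemma mu_erase_eq_two {S : Finset V} {v : V} (hv : v ∈ S) (h : mu lam S (lam v) ≤ 2) (i : ℕ) :
    mu lam (S.erase v) i = 2 ↔ mu lam S i = 2 ∧ i ≠ lam v := by
  have e := mu_erase (lam := lam) hv i
  by_cases c : lam v = i
  · subst c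
    rw [if_pos rfl] at e
    constructor
    · intro h'; omega
    · rintro ⟨-, h'⟩; exact absurd rfl h'
  · rw [if_neg c] at e
    constructor
    · intro h'; exact ⟨by omega, fun h'' => c h''.symm⟩
    · rintro ⟨h', -⟩; omega

lemma mem_trans_erase {S : Finset V} {v : V} (hv : v ∈ S) (h : mu lam S (lam v) ≤ 2)
    {U : Finset V} : U ∈ trans lam (S.erase v) ↔
      U ⊆ S ∧ ∀ i, mu lam U i = if mu lam S i = 2 ∧ i ≠ lam v then 1 else 0 := by
  rw [mem_trans]
  have e : (∀ i, mu lam U i = if mu lam (S.erase v) i = 2 then 1 else 0) ↔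
      ∀ i, mu lam U i = if mu lam S i = 2 ∧ i ≠ lam v then 1 else 0 := by
    apply forall_congr'
    intro i
    simp only [mu_erase_eq_two hv h]
  rw [e, subset_erase]
  constructor
  · rintro ⟨⟨h1, -⟩, h2⟩
    exact ⟨h1, h2⟩
  · rintro ⟨h1, h2⟩
    refine ⟨⟨h1, fun hvU => ?_⟩, h2⟩
    have h3 := h2 (lam v)
    rw [if_neg (fun h' => h'.2 rfl)] at h3
    have h4 := mu_pos (lam := lam) hvU
    omega

lemma trans_congr {S : Finset V} {v v' : V} (hv : v ∈ S) (hv' : v' ∈ S)
    (h : mu lam S (lam v) ≤ 2) (h' : mu lam S (lam v') ≤ 2)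
    (h2 : lam v = lam v' ∨ (mu lam S (lam v) = 1 ∧ mu lam S (lam v') = 1)) :
    trans lam (S.erase v) = trans lam (S.erase v') := by
  ext U
  rw [mem_trans_erase hv h, mem_trans_erase hv' h']
  have e : ∀ i, (mu lam S i = 2 ∧ i ≠ lam v) ↔ (mu lam S i = 2 ∧ i ≠ lam v') := by
    intro i
    rcases h2 with h2 | ⟨h3, h4⟩
    · rw [h2]
    · constructor
      · rintro ⟨h5, -⟩
        refine ⟨h5, ?_⟩
        rintro rfl
        omega
      · rintro ⟨h5, -⟩
        refine ⟨h5, ?_⟩
        rintro rfl
        omega
  simp only [e]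

/-- the code separates a single from a double -/
lemma Edge.not_single_double (hlam : ∀ v, lam v < N) {S : Finset V} {v v' : V} (hv : v ∈ S)
    (hv' : v' ∈ S) (h : Edge lam N s a c (S.erase v)) (h' : Edge lam N s a c (S.erase v'))
    (h1 : mu lam S (lam v) = 2) (h2 : mu lam S (lam v') = 1) : False := by
  have hg := h.halves hlam hv hv' h'
  set D := (range N).filter (fun d => mu lam S d = 2) with hD
  have e1 : (range N).filter (fun d => mu lam (S.erase v) d = 2) = D.erase (lam v) := by
    ext d
    simp only [mem_filter, mem_erase, hD, mu_erase_eq_two hv h1.le]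
    tauto
  have e2 : (range N).filter (fun d => mu lam (S.erase v') d = 2) = D := by
    ext d
    simp only [mem_filter, hD, mu_erase_eq_two hv' (by omega : mu lam S (lam v') ≤ 2)]
    constructor
    · tauto
    · rintro ⟨h3, h4⟩
      refine ⟨h3, h4, ?_⟩
      rintro rfl
      omega
  have hmem : lam v ∈ D := by
    rw [hD, mem_filter, mem_range]
    exact ⟨hlam v, h1⟩
  have c1 := h.code
  have c2 := h'.code
  rw [e1] at c1
  rw [e2] at c2
  have e3 : ∑ d ∈ D, (1 + cnt lam (S.erase v') d / 2 % 2) =
      ∑ d ∈ D, (1 + cnt lam (S.erase v) d / 2 % 2) := by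
    apply sum_congr rfl
    intro d _
    rw [hg d]
  rw [e3, ← add_sum_erase D _ hmem, Nat.cast_add, c1] at c2
  have c3 : ((1 + cnt lam (S.erase v) (lam v) / 2 % 2 : ℕ) : ZMod 3) = 0 := by
    have := add_right_cancel (c2.trans (zero_add a).symm)
    exact this
  have h3 : cnt lam (S.erase v) (lam v) / 2 % 2 < 2 := Nat.mod_lt _ (by norm_num)
  interval_cases hh : cnt lam (S.erase v) (lam v) / 2 % 2
  · revert c3; decide
  · revert c3; decide

lemma cnt_const {S : Finset V} {i j : ℕ} (hij : i ≤ j) (h : ∀ l, i ≤ l → l < j → mu lam S l = 0) :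
    cnt lam S j = cnt lam S i := by
  induction j, hij using Nat.le_induction with
  | base => rfl
  | succ j hj ih =>
    rw [cnt_succ, h j hj (Nat.lt_succ_self j), add_zero]
    exact ih fun l hl hl' => h l hl (by omega)

/-- the code separates two doubles -/
lemma Edge.not_double_double (hlam : ∀ v, lam v < N) {S : Finset V} {v v' : V} (hv : v ∈ S)
    (hv' : v' ∈ S) (h : Edge lam N s a c (S.erase v)) (h' : Edge lam N s a c (S.erase v'))
    (h1 : mu lam S (lam v) = 2) (h2 : mu lam S (lam v') = 2) (hlt : lam v < lam v') : False := by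
  have hg := h.halves hlam hv hv' h'
  have hodd := odd_between hlam hv hv' (h.sum.trans h'.sum.symm) hlt.le
  set D := (range N).filter (fun d => mu lam S d = 2) with hD
  have e1 : (range N).filter (fun d => mu lam (S.erase v) d = 2) = D.erase (lam v) := by
    ext d
    simp only [mem_filter, mem_erase, hD, mu_erase_eq_two hv h1.le]
    tauto
  have e2 : (range N).filter (fun d => mu lam (S.erase v') d = 2) = D.erase (lam v') := by
    ext d
    simp only [mem_filter, mem_erase, hD, mu_erase_eq_two hv' h2.le]
    tauto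
  have hmem : lam v ∈ D := by
    rw [hD, mem_filter, mem_range]
    exact ⟨hlam v, h1⟩
  have hmem' : lam v' ∈ D := by
    rw [hD, mem_filter, mem_range]
    exact ⟨hlam v', h2⟩
  set w : ℕ → ℕ := fun d => 1 + cnt lam (S.erase v') d / 2 % 2 with hw
  have c1 : ((∑ d ∈ D.erase (lam v), w d : ℕ) : ZMod 3) = a := by
    rw [← h.code, e1]
    congr 1
    apply sum_congr rfl
    intro d _
    rw [hw, hg d]
  have c2 : ((∑ d ∈ D.erase (lam v'), w d : ℕ) : ZMod 3) = a := by
    rw [← h'.code, e2]
  have c3 : ((w (lam v) : ℕ) : ZMod 3) = ((w (lam v') : ℕ) : ZMod 3) := by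
    have t1 : ((∑ d ∈ D, w d : ℕ) : ZMod 3) = (w (lam v) : ℕ) + a := by
      rw [← add_sum_erase D _ hmem, Nat.cast_add, c1]
    have t2 : ((∑ d ∈ D, w d : ℕ) : ZMod 3) = (w (lam v') : ℕ) + a := by
      rw [← add_sum_erase D _ hmem', Nat.cast_add, c2]
    exact add_right_cancel (t1.symm.trans t2)
  have hex : ∃ e, lam v < e ∧ mu lam S e = 2 := ⟨lam v', hlt, h2⟩
  classical
  set e := Nat.find hex with he
  obtain ⟨he1, he2⟩ := Nat.find_spec hex
  rw [← he] at he1 he2
  have he3 : e ≤ lam v' := Nat.find_min' hex ⟨hlt, h2⟩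
  have hmu2 : ∀ i, i ≠ lam v → mu lam S i ≤ 2 := by
    intro i hi
    rw [mu_erase hv, if_neg (fun h'' => hi h''.symm)]
    exact h.mult i
  have hz : ∀ i, lam v + 1 ≤ i → i < e → mu lam S i = 0 := by
    intro i hi1 hi2
    have t1 : ¬ (lam v < i ∧ mu lam S i = 2) := Nat.find_min hex hi2
    have t2 := hmu2 i (by omega)
    have t3 := hodd i (by omega) (by omega)
    have t4 := hodd (i + 1) (by omega) (by omega)
    rw [cnt_succ] at t4
    have t5 : mu lam S i ≠ 2 := fun h'' => t1 ⟨by omega, h''⟩
    omega
  have t1 := cnt_const (lam := lam) (S := S) (i := lam v + 1) (j := e) (by omega) hz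
  have t2 := cnt_succ (lam := lam) S (lam v)
  have t3 := cnt_erase (lam := lam) hv' (lam v)
  rw [if_neg (by omega)] at t3
  have t4 := cnt_erase (lam := lam) hv' e
  rw [if_neg (by omega)] at t4
  have t5 : cnt lam (S.erase v') e / 2 = cnt lam (S.erase v') (lam v) / 2 + 1 := by omega
  rcases lt_or_eq_of_le he3 with he4 | he4
  · exact h'.adj (lam v) e
      ((mu_erase_eq_two hv' h2.le _).2 ⟨h1, by omega⟩)
      ((mu_erase_eq_two hv' h2.le _).2 ⟨he2, by omega⟩) t5
  · rw [he4] at t5
    simp only [hw, t5] at c3
    have h3 : cnt lam (S.erase v') (lam v) / 2 % 2 < 2 := Nat.mod_lt _ (by norm_num)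
    rcases Nat.mod_two_eq_zero_or_one (cnt lam (S.erase v') (lam v) / 2) with h4 | h4
    · have h5 : (cnt lam (S.erase v') (lam v) / 2 + 1) % 2 = 1 := by omega
      rw [h4, h5] at c3
      revert c3; decide
    · have h5 : (cnt lam (S.erase v') (lam v) / 2 + 1) % 2 = 0 := by omega
      rw [h4, h5] at c3
      revert c3; decide

/-- every single has a partner -/
lemma exists_partner (hlam : ∀ v, lam v < N) {S : Finset V} (hS : S.card % 2 = 0) {v : V}
    (h1 : mu lam S (lam v) = 1) (hmu : ∀ i, mu lam S i ≤ 2) :
    ∃ v' ∈ S, lam v' ≠ lam v ∧ mu lam S (lam v') = 1 ∧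
      (lam v ≤ lam v' → ∀ j, lam v < j → j ≤ lam v' → cnt lam S j % 2 = 1) ∧
      (lam v' ≤ lam v → ∀ j, lam v' < j → j ≤ lam v → cnt lam S j % 2 = 1) := by
  classical
  have hs := cnt_succ (lam := lam) S (lam v)
  rcases Nat.mod_two_eq_zero_or_one (cnt lam S (lam v)) with h0 | h0
  · -- go up
    have hex : ∃ j, lam v < j ∧ cnt lam S j % 2 = 0 :=
      ⟨N, hlam v, by rw [cnt_top hlam]; exact hS⟩
    set e := Nat.find hex with he
    obtain ⟨he1, he2⟩ := Nat.find_spec hex
    rw [← he] at he1 he2
    have hmin : ∀ j, lam v < j → j < e → cnt lam S j % 2 = 1 := by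
      intro j hj1 hj2
      have := Nat.find_min hex hj2
      have h3 : cnt lam S j % 2 ≠ 0 := fun h'' => this ⟨hj1, h''⟩
      omega
    have he3 : e ≠ lam v + 1 := by
      intro h''
      rw [h''] at he2
      omega
    clear_value e
    obtain ⟨l, rfl⟩ : ∃ l, e = l + 1 := ⟨e - 1, by omega⟩
    have h4 := hmin l (by omega) (by omega)
    have h5 := cnt_succ (lam := lam) S l
    have h6 := hmu l
    have h7 : mu lam S l = 1 := by omega
    obtain ⟨v', hv', hl⟩ := exists_of_mu (lam := lam) (S := S) (i := l) (by omega)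
    refine ⟨v', hv', by omega, by rw [hl]; exact h7, ?_, ?_⟩
    · intro _ j hj1 hj2
      exact hmin j hj1 (by omega)
    · intro h8
      omega
  · -- go down
    have hex : ∃ i, i ≤ lam v ∧ cnt lam S (lam v - i) % 2 = 0 :=
      ⟨lam v, le_rfl, by simp [cnt_zero]⟩
    set e := Nat.find hex with he
    obtain ⟨he1, he2⟩ := Nat.find_spec hex
    rw [← he] at he1 he2
    have hmin : ∀ j, lam v - e < j → j ≤ lam v → cnt lam S j % 2 = 1 := by
      intro j hj1 hj2
      have := Nat.find_min hex (m := lam v - j) (by omega)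
      have h3 : cnt lam S (lam v - (lam v - j)) % 2 ≠ 0 := fun h'' => this ⟨by omega, h''⟩
      have h4 : lam v - (lam v - j) = j := by omega
      rw [h4] at h3
      omega
    have he3 : e ≠ 0 := by
      intro h''
      rw [h''] at he2
      simp only [Nat.sub_zero] at he2
      omega
    have h4 := hmin (lam v - e + 1) (by omega) (by omega)
    have h5 := cnt_succ (lam := lam) S (lam v - e)
    have h6 := hmu (lam v - e)
    have h7 : mu lam S (lam v - e) = 1 := by omega
    obtain ⟨v', hv', hl⟩ := exists_of_mu (lam := lam) (S := S) (i := lam v - e) (by omega)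
    refine ⟨v', hv', by omega, by rw [hl]; exact h7, ?_, ?_⟩
    · intro h8
      omega
    · intro _ j hj1 hj2
      exact hmin j (by omega) hj2

/-- the triple case -/
lemma card_triple {S : Finset V} {v0 : V} (hv0 : v0 ∈ S)
    (h : Edge lam N s a c (S.erase v0)) (h3 : mu lam S (lam v0) = 3) [DecidablePred fun v =>
      Edge lam N s a c (S.erase v)] :
    (S.filter (fun v => Edge lam N s a c (S.erase v))).card = 0 ∨
      (S.filter (fun v => Edge lam N s a c (S.erase v))).card = 2 := by
  classical
  set t := lam v0 with ht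
  set C := S.filter (fun v => lam v = t) with hC
  have hCc : C.card = 3 := h3
  set f : V → ZMod 2 := fun v => ∑ U ∈ trans lam (S.erase v), c U with hf
  have hcell : ∀ v ∈ S, mu lam (S.erase v) t ≤ 2 → lam v = t := by
    intro v hv hle
    by_contra hne
    rw [mu_erase hv, if_neg hne] at h3
    omega
  have hmt : ∀ v ∈ C, ∀ i, mu lam (S.erase v) i = mu lam (S.erase v0) i := by
    intro v hv i
    rw [hC, mem_filter] at hv
    have e1 := mu_erase (lam := lam) hv.1 i
    have e2 := mu_erase (lam := lam) hv0 i
    rw [hv.2] at e1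
    rw [← ht] at e2
    omega
  have hct : ∀ v ∈ C, ∀ j, cnt lam (S.erase v) j = cnt lam (S.erase v0) j := by
    intro v hv i
    rw [hC, mem_filter] at hv
    have e1 := cnt_erase (lam := lam) hv.1 i
    have e2 := cnt_erase (lam := lam) hv0 i
    rw [hv.2] at e1
    rw [← ht] at e2
    omega
  have hiff : S.filter (fun v => Edge lam N s a c (S.erase v)) = C.filter (fun v => f v = 1) := by
    ext v
    rw [mem_filter, mem_filter]
    constructor
    · rintro ⟨hv, he⟩
      exact ⟨mem_filter.2 ⟨hv, hcell v hv (he.mult t)⟩, he.cont⟩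
    · rintro ⟨hv, hfv⟩
      refine ⟨(mem_filter.1 hv).1, h.congr ?_ ?_ ?_ hfv⟩
      · intro j
        rw [hct v hv j]
      · intro i
        rw [hmt v hv i]
      · intro i
        rw [hmt v hv i]
        exact h.mult i
  -- the sum of `f` over the cell vanishes
  set UU := S.powerset.filter (fun U => ∀ i, mu lam U i = if mu lam S i = 2 ∨ i = t then 1 else 0)
    with hUU
  have htr : ∀ v ∈ C, trans lam (S.erase v) = UU.filter (fun U => v ∉ U) := by
    intro v hv
    have hvS := (mem_filter.1 hv).1
    have hvt := (mem_filter.1 hv).2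
    ext U
    rw [mem_trans, hUU, mem_filter, mem_filter, mem_powerset, subset_erase]
    have e : ∀ i, (mu lam (S.erase v) i = 2) ↔ (mu lam S i = 2 ∨ i = t) := by
      intro i
      have e1 := mu_erase (lam := lam) hvS i
      by_cases hi : lam v = i
      · rw [if_pos hi] at e1
        have hit : i = t := by rw [← hi, hvt]
        rw [hit] at e1 ⊢
        constructor
        · intro _; exact Or.inr rfl
        · intro _; omega
      · rw [if_neg hi] at e1
        have hit : i ≠ t := fun h' => hi (by rw [h', hvt])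
        rw [e1]
        constructor
        · intro h'; exact Or.inl (by simpa using h')
        · rintro (h' | h')
          · simpa using h'
          · exact absurd h' hit
    simp only [e]
    tauto
  have hsum : ∑ v ∈ C, f v = 0 := by
    have e1 : ∑ v ∈ C, f v = ∑ v ∈ C, ∑ U ∈ UU, if v ∉ U then c U else 0 := by
      apply sum_congr rfl
      intro v hv
      simp only [hf]
      rw [htr v hv, sum_filter]
    rw [e1, sum_comm]
    apply sum_eq_zero
    intro U hU
    rw [hUU, mem_filter, mem_powerset] at hU
    have e2 : (C.filter (fun v => v ∈ U)).card = 1 := by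
      have e3 : C.filter (fun v => v ∈ U) = U.filter (fun v => lam v = t) := by
        ext v
        rw [hC, mem_filter, mem_filter, mem_filter]
        constructor
        · rintro ⟨⟨_, h4⟩, h5⟩; exact ⟨h5, h4⟩
        · rintro ⟨h5, h4⟩; exact ⟨⟨hU.1 h5, h4⟩, h5⟩
      rw [e3]
      have := hU.2 t
      rw [if_pos (Or.inr rfl)] at this
      exact this
    have e4 : (C.filter (fun v => v ∉ U)).card = 2 := by
      have := card_filter_add_card_filter_not (s := C) (fun v => v ∈ U)
      omega
    rw [← sum_filter, sum_const, e4, nsmul_eq_mul]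
    have : ((2 : ℕ) : ZMod 2) = 0 := by decide
    rw [this, zero_mul]
  have hpar : ((C.filter (fun v => f v = 1)).card : ZMod 2) = 0 := by
    rw [← hsum, card_filter, Nat.cast_sum]
    apply sum_congr rfl
    intro v _
    generalize f v = x
    revert x
    decide
  have hle : (C.filter (fun v => f v = 1)).card ≤ 3 := by
    rw [← hCc]
    exact card_filter_le _ _
  rw [hiff]
  have h4 : 2 ∣ (C.filter (fun v => f v = 1)).card := (ZMod.natCast_eq_zero_iff _ _).1 hpar
  omega

/-- two different singles whose removal gives an edge have different parities -/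
lemma Edge.parity (hlam : ∀ v, lam v < N) {S : Finset V} {v v' : V} (hv : v ∈ S) (hv' : v' ∈ S)
    (h : Edge lam N s a c (S.erase v)) (h' : Edge lam N s a c (S.erase v'))
    (h1 : mu lam S (lam v) = 1) (hlt : lam v < lam v') :
    cnt lam S (lam v) % 2 = 0 ∧ cnt lam S (lam v') % 2 = 1 := by
  have hodd := odd_between hlam hv hv' (h.sum.trans h'.sum.symm) hlt.le
  have t1 := hodd (lam v + 1) (by omega) (by omega)
  have t2 := hodd (lam v') hlt le_rfl
  rw [cnt_succ] at t1
  omega

lemma eq_of_mu_one {S : Finset V} {v v' : V} (hv : v ∈ S) (hv' : v' ∈ S)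
    (h1 : mu lam S (lam v) = 1) (h : lam v' = lam v) : v' = v := by
  obtain ⟨x, hx⟩ := card_eq_one.1 h1
  have e1 : v ∈ S.filter (fun u => lam u = lam v) := mem_filter.2 ⟨hv, rfl⟩
  have e2 : v' ∈ S.filter (fun u => lam u = lam v) := mem_filter.2 ⟨hv', h⟩
  rw [hx, mem_singleton] at e1 e2
  rw [e1, e2]

/-- **Admissibility.** -/
theorem card_edges (hlam : ∀ v, lam v < N) {S : Finset V} (hS : S.card % 2 = 0)
    [DecidablePred fun v => Edge lam N s a c (S.erase v)] :
    (S.filter (fun v => Edge lam N s a c (S.erase v))).card = 0 ∨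
      (S.filter (fun v => Edge lam N s a c (S.erase v))).card = 2 := by
  classical
  rcases eq_empty_or_nonempty (S.filter (fun v => Edge lam N s a c (S.erase v))) with h0 | ⟨v0, h0⟩
  · left
    rw [h0, card_empty]
  obtain ⟨hv0, he0⟩ := mem_filter.1 h0
  by_cases h3 : mu lam S (lam v0) = 3
  · exact card_triple hv0 he0 h3
  have hmu : ∀ i, mu lam S i ≤ 2 := by
    intro i
    have e1 := mu_erase (lam := lam) hv0 i
    have e2 := he0.mult i
    by_cases hi : lam v0 = i
    · subst hi
      rw [if_pos rfl] at e1
      omega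
    · rw [if_neg hi] at e1
      omega
  right
  have hpos := mu_pos (lam := lam) hv0
  have hle := hmu (lam v0)
  have h12 : mu lam S (lam v0) = 1 ∨ mu lam S (lam v0) = 2 := by omega
  rcases h12 with h1 | h2
  · -- a single
    obtain ⟨v1, hv1, hne, hm1, hup, hdown⟩ := exists_partner hlam hS h1 hmu
    have he1 : Edge lam N s a c (S.erase v1) := by
      refine he0.congr ?_ ?_ ?_ ?_
      · intro j
        rcases le_total (lam v0) (lam v1) with hl | hl
        · exact half_eq hv0 hv1 (hup hl) hl j
        · exact (half_eq hv1 hv0 (hdown hl) hl j).symm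
      · intro i
        rw [mu_erase_eq_two hv0 (hmu _), mu_erase_eq_two hv1 (hmu _)]
        constructor
        · rintro ⟨h5, -⟩
          refine ⟨h5, ?_⟩
          rintro rfl
          omega
        · rintro ⟨h5, -⟩
          refine ⟨h5, ?_⟩
          rintro rfl
          omega
      · intro i
        have := mu_erase (lam := lam) hv1 i
        have := hmu i
        omega
      · rw [← trans_congr hv0 hv1 (hmu _) (hmu _) (Or.inr ⟨h1, hm1⟩)]
        exact he0.cont
    have hne' : v0 ≠ v1 := fun h' => hne (by rw [h'])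
    have key : S.filter (fun v => Edge lam N s a c (S.erase v)) = {v0, v1} := by
      ext v
      rw [mem_filter, mem_insert, mem_singleton]
      constructor
      · rintro ⟨hv, he⟩
        have hvpos := mu_pos (lam := lam) hv
        have hvle := hmu (lam v)
        have hv12 : mu lam S (lam v) = 1 ∨ mu lam S (lam v) = 2 := by omega
        rcases hv12 with hv1' | hv2'
        · by_contra hcon
          push Not at hcon
          have n0 : lam v ≠ lam v0 := fun h' => hcon.1 (eq_of_mu_one hv0 hv h1 h')
          have n1 : lam v ≠ lam v1 := fun h' => hcon.2 (eq_of_mu_one hv1 hv hm1 h')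
          rcases lt_or_gt_of_ne n0 with a0 | a0 <;> rcases lt_or_gt_of_ne n1 with a1 | a1 <;>
            rcases lt_or_gt_of_ne hne with a2 | a2
          · have p1 := Edge.parity hlam hv hv0 he he0 hv1' a0
            have p2 := Edge.parity hlam hv hv1 he he1 hv1' a1
            have p3 := Edge.parity hlam hv1 hv0 he1 he0 hm1 a2
            omega
          · have p1 := Edge.parity hlam hv hv0 he he0 hv1' a0
            have p2 := Edge.parity hlam hv hv1 he he1 hv1' a1
            have p3 := Edge.parity hlam hv0 hv1 he0 he1 h1 a2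
            omega
          · have p1 := Edge.parity hlam hv hv0 he he0 hv1' a0
            have p2 := Edge.parity hlam hv1 hv he1 he hm1 a1
            have p3 := Edge.parity hlam hv1 hv0 he1 he0 hm1 a2
            omega
          · omega
          · omega
          · have p1 := Edge.parity hlam hv0 hv he0 he h1 a0
            have p2 := Edge.parity hlam hv hv1 he he1 hv1' a1
            have p3 := Edge.parity hlam hv0 hv1 he0 he1 h1 a2
            omega
          · have p1 := Edge.parity hlam hv0 hv he0 he h1 a0
            have p2 := Edge.parity hlam hv1 hv he1 he hm1 a1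
            have p3 := Edge.parity hlam hv1 hv0 he1 he0 hm1 a2
            omega
          · have p1 := Edge.parity hlam hv0 hv he0 he h1 a0
            have p2 := Edge.parity hlam hv1 hv he1 he hm1 a1
            have p3 := Edge.parity hlam hv0 hv1 he0 he1 h1 a2
            omega
        · exact (Edge.not_single_double hlam hv hv0 he he0 hv2' h1).elim
      · rintro (rfl | rfl)
        · exact ⟨hv0, he0⟩
        · exact ⟨hv1, he1⟩
    rw [key, card_pair hne']
  · -- a double
    obtain ⟨x, y, hxy, hcell⟩ := card_eq_two.1 h2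
    have key : S.filter (fun v => Edge lam N s a c (S.erase v)) =
        S.filter (fun u => lam u = lam v0) := by
      ext v
      rw [mem_filter, mem_filter]
      constructor
      · rintro ⟨hv, he⟩
        refine ⟨hv, ?_⟩
        by_contra hne
        have hvpos := mu_pos (lam := lam) hv
        have hvle := hmu (lam v)
        have hv12 : mu lam S (lam v) = 1 ∨ mu lam S (lam v) = 2 := by omega
        rcases hv12 with hv1' | hv2'
        · exact Edge.not_single_double hlam hv0 hv he0 he h2 hv1'
        · rcases lt_or_gt_of_ne hne with hl | hl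
          · exact Edge.not_double_double hlam hv hv0 he he0 hv2' h2 hl
          · exact Edge.not_double_double hlam hv0 hv he0 he h2 hv2' hl
      · rintro ⟨hv, hl⟩
        refine ⟨hv, he0.congr ?_ ?_ ?_ ?_⟩
        · intro j
          have e1 := cnt_erase (lam := lam) hv0 j
          have e2 := cnt_erase (lam := lam) hv j
          rw [hl] at e2
          have : cnt lam (S.erase v0) j = cnt lam (S.erase v) j := by omega
          rw [this]
        · intro i
          rw [mu_erase_eq_two hv0 (hmu _), mu_erase_eq_two hv (hmu _), hl]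
        · intro i
          have := mu_erase (lam := lam) hv i
          have := hmu i
          omega
        · rw [← trans_congr hv0 hv (hmu _) (hmu _) (Or.inl hl.symm)]
          exact he0.cont
    rw [key]
    exact h2

end Pool.Agent.H56.ZK
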