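import Pool.Agent.H56.ZK.Core

/-!
# Counting labellings (MP_07f90a_co)

For `E` with `k` elements and `3 k ^ 3 ≤ N ^ 2` at least two thirds of the labellings
`l : V → Fin N` are good on `E`: no label occurs three times in `E` and for two labels `d`, `d'`
occurring twice `⌊cnt E d' / 2⌋ ≠ ⌊cnt E d / 2⌋ + 1`.
-/

set_option linter.unusedSectionVars false

namespace Pool.Agent.H56.ZK

open Finset

variable {V : Type*} [DecidableEq V] {N : ℕ}

/-- labels as natural numbers -/
def nlam (l : V → Fin N) : V → ℕ := fun v => (l v : ℕ)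

lemma nlam_lt (l : V → Fin N) (v : V) : nlam l v < N := (l v).isLt

lemma nlam_update_of_ne {l : V → Fin N} {x y v : V} {a b : Fin N} (hx : v ≠ x) (hy : v ≠ y) :
    nlam (Function.update (Function.update l x a) y b) v = nlam l v := by
  unfold nlam
  rw [Function.update_of_ne hy, Function.update_of_ne hx]

lemma mu_congr {lam lam' : V → ℕ} {E : Finset V} (h : ∀ v ∈ E, lam v = lam' v) (i : ℕ) :
    mu lam E i = mu lam' E i := by
  unfold mu
  congr 1
  apply filter_congr
  intro v hv
  rw [h v hv]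

open Classical in
/-- two coordinates are determined by the others -/
lemma free2 [Fintype V] {x2 y2 x1 y1 : V} (h : x2 ≠ y2) (hx : x1 ≠ x2) (hx' : x1 ≠ y2)
    (hy : y1 ≠ x2) (hy' : y1 ≠ y2) (Q : (V → Fin N) → Prop)
    (hQ : ∀ l a b, Q l → Q (Function.update (Function.update l x2 a) y2 b)) :
    N ^ 2 * (univ.filter (fun l : V → Fin N => l x2 = l x1 ∧ l y2 = l y1 ∧ Q l)).card ≤
      (univ.filter Q).card := by
  set A := univ.filter (fun l : V → Fin N => l x2 = l x1 ∧ l y2 = l y1 ∧ Q l) with hA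
  have e : N ^ 2 * A.card = (A ×ˢ (univ : Finset (Fin N × Fin N))).card := by
    rw [card_product, card_univ, Fintype.card_prod, Fintype.card_fin]
    ring
  rw [e]
  apply card_le_card_of_injOn (fun p => Function.update (Function.update p.1 x2 p.2.1) y2 p.2.2)
  · rintro ⟨l, a, b⟩ hp
    have hp' := (mem_product.1 (mem_coe.1 hp)).1
    rw [hA, mem_filter] at hp'
    exact mem_coe.2 (mem_filter.2 ⟨mem_univ _, hQ l a b hp'.2.2.2⟩)
  · rintro ⟨l, a, b⟩ hp ⟨l', a', b'⟩ hp' heq
    have h1 : l x2 = l x1 ∧ l y2 = l y1 ∧ Q l :=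
      (mem_filter.1 (mem_product.1 (mem_coe.1 hp)).1).2
    have h2 : l' x2 = l' x1 ∧ l' y2 = l' y1 ∧ Q l' :=
      (mem_filter.1 (mem_product.1 (mem_coe.1 hp')).1).2
    have heq' : Function.update (Function.update l x2 a) y2 b =
        Function.update (Function.update l' x2 a') y2 b' := heq
    have hb : b = b' := by
      have := congrFun heq' y2
      simpa using this
    have ha : a = a' := by
      have := congrFun heq' x2
      rw [Function.update_of_ne h, Function.update_of_ne h] at this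
      simpa using this
    have hother : ∀ v, v ≠ x2 → v ≠ y2 → l v = l' v := by
      intro v hv1 hv2
      have := congrFun heq' v
      rw [Function.update_of_ne hv2, Function.update_of_ne hv2, Function.update_of_ne hv1,
        Function.update_of_ne hv1] at this
      exact this
    have hl : l = l' := by
      funext v
      by_cases c1 : v = x2
      · subst c1
        rw [h1.1, h2.1]
        exact hother _ hx hx'
      · by_cases c2 : v = y2
        · subst c2
          rw [h1.2.1, h2.2.1]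
          exact hother _ hy hy'
        · exact hother v c1 c2
    rw [hl, ha, hb]

open Classical in
/-- the labellings with a label occurring three times -/
lemma card_bad1 [Fintype V] (E : Finset V) :
    N ^ 2 * (univ.filter (fun l : V → Fin N => ∃ i, 3 ≤ mu (nlam l) E i)).card ≤
      E.card.choose 3 * N ^ Fintype.card V := by
  have hsub : univ.filter (fun l : V → Fin N => ∃ i, 3 ≤ mu (nlam l) E i) ⊆
      (powersetCard 3 E).biUnion (fun T => univ.filter (fun l : V → Fin N =>
        ∀ u ∈ T, ∀ v ∈ T, l u = l v)) := by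
    intro l hl
    obtain ⟨i, hi⟩ := (mem_filter.1 hl).2
    obtain ⟨T, hT1, hT2⟩ := exists_subset_card_eq hi
    rw [mem_biUnion]
    refine ⟨T, mem_powersetCard.2 ⟨hT1.trans (filter_subset _ _), hT2⟩,
      mem_filter.2 ⟨mem_univ _, ?_⟩⟩
    intro u hu v hv
    have h1 := (mem_filter.1 (hT1 hu)).2
    have h2 := (mem_filter.1 (hT1 hv)).2
    apply Fin.ext
    exact h1.trans h2.symm
  have hT : ∀ T ∈ powersetCard 3 E, N ^ 2 * (univ.filter (fun l : V → Fin N =>
      ∀ u ∈ T, ∀ v ∈ T, l u = l v)).card ≤ N ^ Fintype.card V := by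
    intro T hT
    obtain ⟨x, y, z, hxy, hxz, hyz, rfl⟩ := card_eq_three.1 (mem_powersetCard.1 hT).2
    have h1 := free2 (N := N) (x2 := y) (y2 := z) (x1 := x) (y1 := x) hyz hxy hxz hxy hxz
      (fun _ => True) (fun _ _ _ _ => trivial)
    have h2 := h1.trans (card_le_univ _)
    rw [Fintype.card_fun, Fintype.card_fin] at h2
    refine le_trans (Nat.mul_le_mul_left _ (card_le_card ?_)) h2
    intro l hl
    have h3 := (mem_filter.1 hl).2
    simp only [mem_filter, mem_univ, true_and, and_true]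
    exact ⟨h3 y (by simp) x (by simp), h3 z (by simp) x (by simp)⟩
  calc N ^ 2 * (univ.filter (fun l : V → Fin N => ∃ i, 3 ≤ mu (nlam l) E i)).card
      ≤ N ^ 2 * ∑ T ∈ powersetCard 3 E, (univ.filter (fun l : V → Fin N =>
        ∀ u ∈ T, ∀ v ∈ T, l u = l v)).card :=
        Nat.mul_le_mul_left _ ((card_le_card hsub).trans card_biUnion_le)
    _ = ∑ T ∈ powersetCard 3 E, N ^ 2 * (univ.filter (fun l : V → Fin N =>
        ∀ u ∈ T, ∀ v ∈ T, l u = l v)).card := mul_sum _ _ _
    _ ≤ ∑ _T ∈ powersetCard 3 E, N ^ Fintype.card V := sum_le_sum hT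
    _ = _ := by rw [sum_const, card_powersetCard, smul_eq_mul]

/-- at most three elements are at distance at most one from a given one -/
lemma card_near_le (lam : V → ℕ) (E : Finset V) (x : V) (h : ∀ i, mu lam E i ≤ 2) :
    (E.filter (fun y => lam x < lam y ∧
      (E.filter (fun z => lam x < lam z ∧ lam z < lam y)).card ≤ 1)).card ≤ 3 := by
  set B := E.filter (fun y => lam x < lam y ∧
      (E.filter (fun z => lam x < lam z ∧ lam z < lam y)).card ≤ 1) with hB
  rcases B.eq_empty_or_nonempty with h0 | h0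
  · rw [h0, card_empty]
    omega
  obtain ⟨y, hy, hmax⟩ := exists_max_image B lam h0
  have hy' := (mem_filter.1 (hB ▸ hy)).2
  have hsub : B ⊆ E.filter (fun z => lam x < lam z ∧ lam z < lam y) ∪
      E.filter (fun z => lam z = lam y) := by
    intro z hz
    have h1 := hmax z hz
    have h2 := mem_filter.1 (hB ▸ hz)
    rw [mem_union, mem_filter, mem_filter]
    rcases lt_or_eq_of_le h1 with h3 | h3
    · exact Or.inl ⟨h2.1, h2.2.1, h3⟩
    · exact Or.inr ⟨h2.1, h3⟩
  have h4 := (card_le_card hsub).trans (card_union_le _ _)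
  have h5 : (E.filter (fun z => lam z = lam y)).card ≤ 2 := h (lam y)
  omega

lemma cnt_add {lam : V → ℕ} (E : Finset V) {i j : ℕ} (h : i ≤ j) :
    cnt lam E j = cnt lam E i + (E.filter (fun z => i ≤ lam z ∧ lam z < j)).card := by
  unfold cnt
  rw [← card_union_of_disjoint, ← filter_or]
  · congr 1
    apply filter_congr
    intro v _
    omega
  · rw [disjoint_filter]
    intro v _ h
    omega

/-- two adjacent doubles -/
def Adj (lam : V → ℕ) (E : Finset V) : Prop :=
  (∀ i, mu lam E i ≤ 2) ∧ ∃ d d', mu lam E d = 2 ∧ mu lam E d' = 2 ∧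
    cnt lam E d' / 2 = cnt lam E d / 2 + 1

/-- the condition on the other coordinates -/
def QQ (E : Finset V) (x2 y2 x1 y1 : V) (l : V → Fin N) : Prop :=
  x2 ≠ y2 ∧ x1 ∈ (E.erase x2).erase y2 ∧ y1 ∈ (E.erase x2).erase y2 ∧ nlam l x1 < nlam l y1 ∧
    (∀ i, mu (nlam l) ((E.erase x2).erase y2) i ≤ 2) ∧
    (((E.erase x2).erase y2).filter
      (fun z => nlam l x1 < nlam l z ∧ nlam l z < nlam l y1)).card ≤ 1

lemma QQ_update {E : Finset V} {x2 y2 x1 y1 : V} {l : V → Fin N} (a b : Fin N)
    (h : QQ E x2 y2 x1 y1 l) :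
    QQ E x2 y2 x1 y1 (Function.update (Function.update l x2 a) y2 b) := by
  obtain ⟨h0, h1, h2, h3, h4, h5⟩ := h
  have e : ∀ v ∈ (E.erase x2).erase y2,
      nlam l v = nlam (Function.update (Function.update l x2 a) y2 b) v := by
    intro v hv
    rw [mem_erase, mem_erase] at hv
    exact (nlam_update_of_ne hv.2.1 hv.1).symm
  refine ⟨h0, h1, h2, ?_, ?_, ?_⟩
  · rw [← e _ h1, ← e _ h2]
    exact h3
  · intro i
    rw [← mu_congr e i]
    exact h4 i
  · rw [← e _ h1, ← e _ h2]
    have e2 : ((E.erase x2).erase y2).filter (fun z => nlam l x1 <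
        nlam (Function.update (Function.update l x2 a) y2 b) z ∧
        nlam (Function.update (Function.update l x2 a) y2 b) z < nlam l y1) =
        ((E.erase x2).erase y2).filter (fun z => nlam l x1 < nlam l z ∧ nlam l z < nlam l y1) := by
      apply filter_congr
      intro z hz
      rw [e z hz]
    rw [e2]
    exact h5

/-- structure of two adjacent doubles -/
lemma Adj.exists {lam : V → ℕ} {E : Finset V} (h : Adj lam E) :
    ∃ x x' y y', x ∈ E ∧ x' ∈ E ∧ y ∈ E ∧ y' ∈ E ∧ x ≠ x' ∧ y ≠ y' ∧ lam x' = lam x ∧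
      lam y' = lam y ∧ lam x < lam y ∧
      (E.filter (fun z => lam x < lam z ∧ lam z < lam y)).card ≤ 1 := by
  obtain ⟨hmu, d, d', hd, hd', hg⟩ := h
  obtain ⟨x, x', hxx, hx⟩ := card_eq_two.1 hd
  obtain ⟨y, y', hyy, hy⟩ := card_eq_two.1 hd'
  have mx : ∀ v, v ∈ E.filter (fun v => lam v = d) ↔ v ∈ E ∧ lam v = d := fun v => mem_filter
  have my : ∀ v, v ∈ E.filter (fun v => lam v = d') ↔ v ∈ E ∧ lam v = d' := fun v => mem_filter
  have x1 := (mx x).1 (by rw [hx]; simp)
  have x2 := (mx x').1 (by rw [hx]; simp)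
  have y1 := (my y).1 (by rw [hy]; simp)
  have y2 := (my y').1 (by rw [hy]; simp)
  have hlt : d < d' := by
    by_contra hcon
    have := cnt_mono (lam := lam) E (not_lt.1 hcon)
    omega
  refine ⟨x, x', y, y', x1.1, x2.1, y1.1, y2.1, hxx, hyy, by omega, by omega, by omega, ?_⟩
  have e1 := cnt_add (lam := lam) E (i := d + 1) (j := d') (by omega)
  have e2 := cnt_succ (lam := lam) E d
  have e3 : (E.filter (fun z => lam x < lam z ∧ lam z < lam y)) =
      E.filter (fun z => d + 1 ≤ lam z ∧ lam z < d') := by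
    apply filter_congr
    intro z _
    omega
  rw [e3]
  omega

open Classical in
/-- the labellings with two adjacent doubles -/
lemma card_bad2 [Fintype V] (E : Finset V) :
    4 * (N ^ 2 * (univ.filter (fun l : V → Fin N => Adj (nlam l) E)).card) ≤
      3 * E.card ^ 3 * N ^ Fintype.card V := by
  set P : (V × V) × (V × V) → (V → Fin N) → Prop := fun q l =>
    l q.1.1 = l q.2.1 ∧ l q.1.2 = l q.2.2 ∧ QQ E q.1.1 q.1.2 q.2.1 q.2.2 l with hP
  set I := (E ×ˢ E) ×ˢ (E ×ˢ E) with hI
  -- every bad labelling is counted four times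
  have h1 : ∀ l : V → Fin N, Adj (nlam l) E → 4 ≤ (I.filter (fun q => P q l)).card := by
    intro l hl
    obtain ⟨x, x', y, y', hx, hx', hy, hy', hxx, hyy, exx, eyy, hlt, hc⟩ := hl.exists
    have exx' : l x' = l x := Fin.ext exx
    have eyy' : l y' = l y := Fin.ext eyy
    have key : ∀ u u' w w', u ∈ E → u' ∈ E → w ∈ E → w' ∈ E → u ≠ u' → w ≠ w' →
        l u = l x → l u' = l x → l w = l y → l w' = l y → P ((u', w'), (u, w)) l := by
      intro u u' w w' hu hu' hw hw' huu hww eu eu' ew ew'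
      have nuw : ∀ a b, l a = l x → l b = l y → a ≠ b := by
        rintro a b ha hb rfl
        rw [ha] at hb
        have : nlam l x = nlam l y := by unfold nlam; rw [hb]
        omega
      have nu : nlam l u = nlam l x := by unfold nlam; rw [eu]
      have nw : nlam l w = nlam l y := by unfold nlam; rw [ew]
      refine ⟨by rw [eu', eu], by rw [ew', ew], nuw _ _ eu' ew', ?_, ?_, ?_, ?_, ?_⟩
      · rw [mem_erase, mem_erase]
        exact ⟨nuw _ _ eu ew', huu, hu⟩
      · rw [mem_erase, mem_erase]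
        exact ⟨hww, (nuw _ _ eu' ew).symm, hw⟩
      · show nlam l u < nlam l w
        rw [nu, nw]
        exact hlt
      · intro i
        refine le_trans ?_ (hl.1 i)
        exact card_le_card (filter_subset_filter _ ((erase_subset _ _).trans (erase_subset _ _)))
      · show (((E.erase u').erase w').filter
          (fun z => nlam l u < nlam l z ∧ nlam l z < nlam l w)).card ≤ 1
        rw [nu, nw]
        exact (card_le_card (filter_subset_filter _
          ((erase_subset _ _).trans (erase_subset _ _)))).trans hc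
    have hsub : ({((x', y'), (x, y)), ((x, y'), (x', y)), ((x', y), (x, y')),
        ((x, y), (x', y'))} : Finset ((V × V) × (V × V))) ⊆ I.filter (fun q => P q l) := by
      intro q hq
      rw [mem_insert, mem_insert, mem_insert, mem_singleton] at hq
      rw [mem_filter, hI, mem_product, mem_product, mem_product]
      rcases hq with rfl | rfl | rfl | rfl
      · exact ⟨⟨⟨hx', hy'⟩, hx, hy⟩, key x x' y y' hx hx' hy hy' hxx hyy rfl exx' rfl eyy'⟩
      · exact ⟨⟨⟨hx, hy'⟩, hx', hy⟩, key x' x y y' hx' hx hy hy' hxx.symm hyy exx' rfl rfl eyy'⟩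
      · exact ⟨⟨⟨hx', hy⟩, hx, hy'⟩, key x x' y' y hx hx' hy' hy hxx hyy.symm rfl exx' eyy' rfl⟩
      · exact ⟨⟨⟨hx, hy⟩, hx', hy'⟩, key x' x y' y hx' hx hy' hy hxx.symm hyy.symm exx' rfl eyy' rfl⟩
    have hcard : ({((x', y'), (x, y)), ((x, y'), (x', y)), ((x', y), (x, y')),
        ((x, y), (x', y'))} : Finset ((V × V) × (V × V))).card = 4 := by
      rw [card_insert_of_notMem, card_insert_of_notMem, card_insert_of_notMem, card_singleton]
      · simp [hxx, hxx.symm]
      · simp [hxx, hyy, hxx.symm, hyy.symm]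
      · simp [hxx, hyy, hxx.symm, hyy.symm]
    rw [← hcard]
    exact card_le_card hsub
  -- each quadruple
  have h2 : ∀ q : (V × V) × (V × V), N ^ 2 * (univ.filter (fun l : V → Fin N => P q l)).card ≤
      (univ.filter (fun l : V → Fin N => QQ E q.1.1 q.1.2 q.2.1 q.2.2 l)).card := by
    rintro ⟨⟨x2, y2⟩, ⟨x1, y1⟩⟩
    by_cases hc : x2 ≠ y2 ∧ x1 ∈ (E.erase x2).erase y2 ∧ y1 ∈ (E.erase x2).erase y2
    · obtain ⟨c1, c2, c3⟩ := hc
      rw [mem_erase, mem_erase] at c2 c3
      exact free2 c1 c2.2.1 c2.1 c3.2.1 c3.1 (fun l => QQ E x2 y2 x1 y1 l)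
        (fun l a b h => QQ_update a b h)
    · have : (univ.filter (fun l : V → Fin N => P ((x2, y2), (x1, y1)) l)) = ∅ := by
        rw [filter_eq_empty_iff]
        rintro l - ⟨-, -, h3⟩
        exact hc ⟨h3.1, h3.2.1, h3.2.2.1⟩
      rw [this, card_empty, mul_zero]
      exact Nat.zero_le _
  -- for given `x2`, `y2` and `l` there are few pairs
  have h3 : ∀ (p : V × V) (l : V → Fin N),
      ((E ×ˢ E).filter (fun r => QQ E p.1 p.2 r.1 r.2 l)).card ≤ 3 * E.card := by
    intro p l
    have e1 : ((E ×ˢ E).filter (fun r => QQ E p.1 p.2 r.1 r.2 l)).card =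
        ∑ x ∈ E, (E.filter (fun y => QQ E p.1 p.2 x y l)).card := by
      rw [card_filter, sum_product]
      apply sum_congr rfl
      intro x _
      rw [card_filter]
    rw [e1]
    have e2 : ∀ x ∈ E, (E.filter (fun y => QQ E p.1 p.2 x y l)).card ≤ 3 := by
      intro x _
      by_cases hmu : ∀ i, mu (nlam l) ((E.erase p.1).erase p.2) i ≤ 2
      · refine le_trans (card_le_card ?_)
          (card_near_le (nlam l) ((E.erase p.1).erase p.2) x hmu)
        intro y hy
        rw [mem_filter] at hy ⊢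
        exact ⟨hy.2.2.2.1, hy.2.2.2.2.1, hy.2.2.2.2.2.2⟩
      · have : E.filter (fun y => QQ E p.1 p.2 x y l) = ∅ := by
          rw [filter_eq_empty_iff]
          intro y _ hq
          exact hmu hq.2.2.2.2.1
        rw [this, card_empty]
        omega
    calc ∑ x ∈ E, (E.filter (fun y => QQ E p.1 p.2 x y l)).card ≤ ∑ _x ∈ E, 3 := sum_le_sum e2
      _ = 3 * E.card := by rw [sum_const, smul_eq_mul, mul_comm]
  -- double counting
  have h4 : 4 * (univ.filter (fun l : V → Fin N => Adj (nlam l) E)).card ≤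
      ∑ q ∈ I, (univ.filter (fun l : V → Fin N => P q l)).card := by
    have e1 : ∑ q ∈ I, (univ.filter (fun l : V → Fin N => P q l)).card =
        ∑ l : V → Fin N, (I.filter (fun q => P q l)).card := by
      simp only [card_filter]
      exact sum_comm
    rw [e1, card_filter, mul_sum]
    apply sum_le_sum
    intro l _
    split_ifs with hl
    · rw [mul_one]
      exact h1 l hl
    · rw [mul_zero]
      exact Nat.zero_le _
  have h5 : ∑ q ∈ I, (univ.filter (fun l : V → Fin N => QQ E q.1.1 q.1.2 q.2.1 q.2.2 l)).card ≤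
      3 * E.card ^ 3 * N ^ Fintype.card V := by
    have e1 : ∑ q ∈ I, (univ.filter (fun l : V → Fin N =>
        QQ E q.1.1 q.1.2 q.2.1 q.2.2 l)).card =
        ∑ p ∈ E ×ˢ E, ∑ l : V → Fin N, ((E ×ˢ E).filter (fun r => QQ E p.1 p.2 r.1 r.2 l)).card := by
      rw [hI, sum_product]
      apply sum_congr rfl
      intro p _
      simp only [card_filter]
      exact sum_comm
    rw [e1]
    calc ∑ p ∈ E ×ˢ E, ∑ l : V → Fin N, ((E ×ˢ E).filter (fun r => QQ E p.1 p.2 r.1 r.2 l)).card
        ≤ ∑ _p ∈ E ×ˢ E, ∑ _l : V → Fin N, 3 * E.card :=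
          sum_le_sum fun p _ => sum_le_sum fun l _ => h3 p l
      _ = 3 * E.card ^ 3 * N ^ Fintype.card V := by
        rw [sum_const, sum_const, card_product, card_univ, Fintype.card_fun, Fintype.card_fin,
          smul_eq_mul, smul_eq_mul]
        ring
  calc 4 * (N ^ 2 * (univ.filter (fun l : V → Fin N => Adj (nlam l) E)).card)
      = N ^ 2 * (4 * (univ.filter (fun l : V → Fin N => Adj (nlam l) E)).card) := by ring
    _ ≤ N ^ 2 * ∑ q ∈ I, (univ.filter (fun l : V → Fin N => P q l)).card :=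
        Nat.mul_le_mul_left _ h4
    _ = ∑ q ∈ I, N ^ 2 * (univ.filter (fun l : V → Fin N => P q l)).card := mul_sum _ _ _
    _ ≤ ∑ q ∈ I, (univ.filter (fun l : V → Fin N => QQ E q.1.1 q.1.2 q.2.1 q.2.2 l)).card :=
        sum_le_sum fun q _ => h2 q
    _ ≤ _ := h5

/-- good labellings -/
def Good (lam : V → ℕ) (E : Finset V) : Prop :=
  (∀ i, mu lam E i ≤ 2) ∧ ∀ d d', mu lam E d = 2 → mu lam E d' = 2 →
    cnt lam E d' / 2 ≠ cnt lam E d / 2 + 1

open Classical in
/-- at least two thirds of the labellings are good -/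
theorem card_good [Fintype V] (E : Finset V) (hN : 3 * E.card ^ 3 ≤ N ^ 2) (hN0 : 0 < N) :
    2 * N ^ Fintype.card V ≤ 3 * (univ.filter (fun l : V → Fin N => Good (nlam l) E)).card := by
  set B1 := univ.filter (fun l : V → Fin N => ∃ i, 3 ≤ mu (nlam l) E i) with hB1
  set B2 := univ.filter (fun l : V → Fin N => Adj (nlam l) E) with hB2
  set G := univ.filter (fun l : V → Fin N => Good (nlam l) E) with hG
  have hcover : (univ : Finset (V → Fin N)) ⊆ G ∪ (B1 ∪ B2) := by
    intro l _
    rw [mem_union, mem_union, hG, hB1, hB2, mem_filter, mem_filter, mem_filter]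
    by_cases c1 : ∃ i, 3 ≤ mu (nlam l) E i
    · exact Or.inr (Or.inl ⟨mem_univ _, c1⟩)
    · have c1' : ∀ i, mu (nlam l) E i ≤ 2 := by
        intro i
        by_contra hcon
        exact c1 ⟨i, by omega⟩
      by_cases c2 : Adj (nlam l) E
      · exact Or.inr (Or.inr ⟨mem_univ _, c2⟩)
      · left
        refine ⟨mem_univ _, c1', fun d d' hd hd' he => c2 ⟨c1', d, d', hd, hd', he⟩⟩
  have h0 := (card_le_card hcover).trans ((card_union_le _ _).trans
    (Nat.add_le_add_left (card_union_le _ _) _))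
  rw [card_univ, Fintype.card_fun, Fintype.card_fin] at h0
  have h1 := card_bad1 (N := N) E
  have h2 := card_bad2 (N := N) E
  rw [← hB1] at h1
  rw [← hB2] at h2
  have h3 : 6 * E.card.choose 3 ≤ E.card ^ 3 := by
    have := Nat.descFactorial_eq_factorial_mul_choose E.card 3
    have h4 := Nat.descFactorial_le_pow E.card 3
    rw [this] at h4
    exact h4
  set T := N ^ Fintype.card V with hT
  have hNN : 0 < N ^ 2 := by positivity
  -- `36 N^2 (|B1| + |B2|) ≤ 33 k^3 T ≤ 11 N^2 T`
  have h5 : 36 * (N ^ 2 * (B1.card + B2.card)) ≤ 11 * (N ^ 2 * T) := by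
    have a1 : 36 * (N ^ 2 * B1.card) ≤ 6 * E.card ^ 3 * T := by
      calc 36 * (N ^ 2 * B1.card) ≤ 36 * (E.card.choose 3 * T) := Nat.mul_le_mul_left _ h1
        _ = 6 * (6 * E.card.choose 3) * T := by ring
        _ ≤ 6 * E.card ^ 3 * T := Nat.mul_le_mul_right _ (Nat.mul_le_mul_left _ h3)
    have a2 : 36 * (N ^ 2 * B2.card) ≤ 27 * E.card ^ 3 * T := by
      calc 36 * (N ^ 2 * B2.card) = 9 * (4 * (N ^ 2 * B2.card)) := by ring
        _ ≤ 9 * (3 * E.card ^ 3 * T) := Nat.mul_le_mul_left _ h2
        _ = _ := by ring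
    calc 36 * (N ^ 2 * (B1.card + B2.card)) = 36 * (N ^ 2 * B1.card) + 36 * (N ^ 2 * B2.card) := by
          ring
      _ ≤ 6 * E.card ^ 3 * T + 27 * E.card ^ 3 * T := Nat.add_le_add a1 a2
      _ = 11 * (3 * E.card ^ 3) * T := by ring
      _ ≤ 11 * N ^ 2 * T := Nat.mul_le_mul_right _ (Nat.mul_le_mul_left _ hN)
      _ = _ := by ring
  have h6 : 36 * (B1.card + B2.card) ≤ 11 * T := by
    have h7 : N ^ 2 * (36 * (B1.card + B2.card)) ≤ N ^ 2 * (11 * T) := by
      calc N ^ 2 * (36 * (B1.card + B2.card)) = 36 * (N ^ 2 * (B1.card + B2.card)) := by ring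
        _ ≤ 11 * (N ^ 2 * T) := h5
        _ = _ := by ring
    exact Nat.le_of_mul_le_mul_left h7 hNN
  omega

end Pool.Agent.H56.ZK
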