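import Pool.Agent.H63.ZT.Base
import Pool.Agent.H56.ZK.Count

/-!
# Rules from families of sets, and the density of the rule `Edge` (MP_07f90a_co)
-/

set_option linter.unusedSectionVars false

namespace Pool.Agent.H56.ZK

open Finset Pool.Agent.H63ZT

section Rule

variable {V : Type*} [DecidableEq V] {k : ℕ}

/-- the positions of the `i`-th face -/
def sig (i j : ℕ) : ℕ := if j < i then j else j + 1

lemma face_eq (i : ℕ) (x : ℕ → V) : face i x = x ∘ sig i := by
  funext j
  unfold face sig
  simp only [Function.comp]
  split_ifs <;> rfl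

lemma sig_inj (i : ℕ) : Function.Injective (sig i) := by
  intro a b h
  unfold sig at h
  split_ifs at h <;> omega

lemma image_sig {i : ℕ} (hi : i ∈ range (k + 1)) : (range k).image (sig i) = (range (k + 1)).erase i := by
  rw [mem_range] at hi
  ext j
  rw [mem_image, mem_erase, mem_range]
  constructor
  · rintro ⟨l, hl, rfl⟩
    rw [mem_range] at hl
    unfold sig
    split_ifs <;> omega
  · rintro ⟨h1, h2⟩
    unfold sig
    by_cases h3 : j < i
    · exact ⟨j, mem_range.2 (by omega), by rw [if_pos h3]⟩
    · exact ⟨j - 1, mem_range.2 (by omega), by rw [if_neg (by omega)]; omega⟩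

lemma image_face {i : ℕ} (hi : i ∈ range (k + 1)) (x : ℕ → V) :
    (range k).image (face i x) = ((range (k + 1)).erase i).image x := by
  rw [face_eq, ← image_image, image_sig hi]

open Classical in
/-- The rule of a family of sets such that every `k + 1`-set contains `0` or `2` of them. -/
noncomputable def ofFam (P : Finset V → Prop)
    (hP : ∀ S : Finset V, S.card = k + 1 → (S.filter (fun v => P (S.erase v))).card = 0 ∨
      (S.filter (fun v => P (S.erase v))).card = 2) : Rule V k where
  P x := decide (((range k).image x).card = k ∧ P ((range k).image x))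
  loc x y h := by
    have e : (range k).image x = (range k).image y := by
      apply image_congr
      intro j hj
      exact h j (mem_range.1 (mem_coe.1 hj))
    rw [e]
  adm x := by
    rw [sum_b2n]
    have e0 : (range (k + 1)).filter (fun i => decide (((range k).image (face i x)).card = k ∧
        P ((range k).image (face i x))) = true) =
        (range (k + 1)).filter (fun i => (((range (k + 1)).erase i).image x).card = k ∧
          P (((range (k + 1)).erase i).image x)) := by
      apply filter_congr
      intro i hi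
      rw [image_face hi, decide_eq_true_iff]
    rw [e0]
    have hcJ : ∀ i ∈ range (k + 1), ((range (k + 1)).erase i).card = k := by
      intro i hi
      rw [card_erase_of_mem hi, card_range]
      rfl
    by_cases hinj : Set.InjOn x (range (k + 1) : Finset ℕ)
    · -- injective sequences
      set S := (range (k + 1)).image x with hS
      have hSc : S.card = k + 1 := by
        rw [hS, card_image_of_injOn hinj, card_range]
      have himg : ∀ i ∈ range (k + 1), ((range (k + 1)).erase i).image x = S.erase (x i) := by
        intro i hi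
        ext v
        rw [mem_image, mem_erase, hS, mem_image]
        constructor
        · rintro ⟨j, hj, rfl⟩
          rw [mem_erase] at hj
          exact ⟨fun h => hj.1 (hinj (mem_coe.2 hj.2) (mem_coe.2 hi) h), j, hj.2, rfl⟩
        · rintro ⟨h1, j, hj, rfl⟩
          exact ⟨j, mem_erase.2 ⟨fun h => h1 (by rw [h]), hj⟩, rfl⟩
      have e1 : ((range (k + 1)).filter (fun i => (((range (k + 1)).erase i).image x).card = k ∧
          P (((range (k + 1)).erase i).image x))).card =
          (S.filter (fun v => P (S.erase v))).card := by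
        apply card_bij (fun i _ => x i)
        · intro i hi
          rw [mem_filter] at hi
          rw [mem_filter, ← himg i hi.1]
          exact ⟨mem_image_of_mem _ hi.1, hi.2.2⟩
        · intro i hi j hj h
          exact hinj (mem_coe.2 (mem_filter.1 hi).1) (mem_coe.2 (mem_filter.1 hj).1) h
        · intro v hv
          rw [mem_filter, hS, mem_image] at hv
          obtain ⟨⟨i, hi, rfl⟩, hv2⟩ := hv
          refine ⟨i, ?_, rfl⟩
          rw [mem_filter, himg i hi]
          refine ⟨hi, ?_, hv2⟩
          rw [card_erase_of_mem (by rw [hS]; exact mem_image_of_mem _ hi), hSc]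
          rfl
      rw [e1]
      exact hP S hSc
    · -- a repeated entry
      have hex : ∃ a ∈ range (k + 1), ∃ b ∈ range (k + 1), a ≠ b ∧ x a = x b := by
        by_contra hcon
        push Not at hcon
        apply hinj
        intro a ha b hb hab
        by_contra hne
        exact hcon a (mem_coe.1 ha) b (mem_coe.1 hb) hne hab
      obtain ⟨a, ha, b, hb, hab, hx⟩ := hex
      have hsub : (range (k + 1)).filter (fun i => (((range (k + 1)).erase i).image x).card = k ∧
          P (((range (k + 1)).erase i).image x)) ⊆ {a, b} := by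
        intro i hi
        rw [mem_filter] at hi
        rw [mem_insert, mem_singleton]
        by_contra hcon
        push Not at hcon
        have h1 : Set.InjOn x ((range (k + 1)).erase i : Finset ℕ) := by
          apply card_image_iff.1
          rw [hi.2.1, hcJ i hi.1]
        exact hab (h1 (mem_coe.2 (mem_erase.2 ⟨hcon.1.symm, ha⟩))
          (mem_coe.2 (mem_erase.2 ⟨hcon.2.symm, hb⟩)) hx)
      have heq : ((range (k + 1)).erase a).image x = ((range (k + 1)).erase b).image x := by
        ext v
        rw [mem_image, mem_image]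
        constructor
        · rintro ⟨j, hj, rfl⟩
          rw [mem_erase] at hj
          by_cases hjb : j = b
          · subst hjb
            exact ⟨a, mem_erase.2 ⟨hab, ha⟩, hx⟩
          · exact ⟨j, mem_erase.2 ⟨hjb, hj.2⟩, rfl⟩
        · rintro ⟨j, hj, rfl⟩
          rw [mem_erase] at hj
          by_cases hja : j = a
          · subst hja
            exact ⟨b, mem_erase.2 ⟨hab.symm, hb⟩, hx.symm⟩
          · exact ⟨j, mem_erase.2 ⟨hja, hj.2⟩, rfl⟩
      by_cases hPa : (((range (k + 1)).erase a).image x).card = k ∧
          P (((range (k + 1)).erase a).image x)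
      · right
        have : (range (k + 1)).filter (fun i => (((range (k + 1)).erase i).image x).card = k ∧
            P (((range (k + 1)).erase i).image x)) = {a, b} := by
          apply Subset.antisymm hsub
          intro i hi
          rw [mem_insert, mem_singleton] at hi
          rw [mem_filter]
          rcases hi with rfl | rfl
          · exact ⟨ha, hPa⟩
          · rw [← heq]
            exact ⟨hb, hPa⟩
        rw [this, card_pair hab]
      · left
        rw [card_eq_zero, filter_eq_empty_iff]
        intro i hi hi'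
        have h1 := hsub (mem_filter.2 ⟨hi, hi'⟩)
        rw [mem_insert, mem_singleton] at h1
        rcases h1 with rfl | rfl
        · exact hPa hi'
        · rw [← heq] at hi'
          exact hPa hi'

open Classical in
lemma ofFam_P {P : Finset V → Prop}
    {hP : ∀ S : Finset V, S.card = k + 1 → (S.filter (fun v => P (S.erase v))).card = 0 ∨
      (S.filter (fun v => P (S.erase v))).card = 2} {x : ℕ → V} :
    (ofFam P hP).P x = true ↔ ((range k).image x).card = k ∧ P ((range k).image x) := by
  unfold ofFam
  simp

end Rule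

/-! ### Density -/

/-- half of the functions have odd sum over a nonempty set -/
lemma card_half {I : Type*} [Fintype I] [DecidableEq I] (T : Finset I) (hT : T.Nonempty) :
    Fintype.card (I → ZMod 2) ≤ 2 * (univ.filter (fun c : I → ZMod 2 => ∑ U ∈ T, c U = 1)).card := by
  obtain ⟨U0, hU0⟩ := hT
  have h1 : (univ.filter (fun c : I → ZMod 2 => ¬ ∑ U ∈ T, c U = 1)).card ≤
      (univ.filter (fun c : I → ZMod 2 => ∑ U ∈ T, c U = 1)).card := by
    apply card_le_card_of_injOn (fun c => c + Pi.single U0 1)
    · intro c hc
      have hc' := (mem_filter.1 (mem_coe.1 hc)).2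
      refine mem_coe.2 (mem_filter.2 ⟨mem_univ _, ?_⟩)
      have e : ∑ U ∈ T, (c + Pi.single U0 1 : I → ZMod 2) U = ∑ U ∈ T, c U + 1 := by
        simp only [Pi.add_apply, sum_add_distrib]
        congr 1
        rw [sum_eq_single_of_mem U0 hU0]
        · simp
        · intro b _ hb
          simp [hb]
      rw [e]
      generalize ∑ U ∈ T, c U = y at hc'
      revert hc'
      revert y
      decide
    · intro a _ b _ h
      exact add_right_cancel h
  have h2 := card_filter_add_card_filter_not (s := (univ : Finset (I → ZMod 2)))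
    (fun c => ∑ U ∈ T, c U = 1)
  rw [card_univ] at h2
  omega

lemma trans_nonempty {n : ℕ} (lam : Fin n → ℕ) (E : Finset (Fin n)) : (trans lam E).Nonempty := by
  classical
  refine ⟨E.filter (fun v => mu lam E (lam v) = 2 ∧ ∀ u ∈ E, lam u = lam v → v ≤ u), ?_⟩
  rw [mem_trans]
  refine ⟨filter_subset _ _, fun i => ?_⟩
  split_ifs with hi
  · have hne : (E.filter (fun v => lam v = i)).Nonempty := by
      rw [← card_pos]
      unfold mu at hi
      omega
    unfold mu
    rw [card_eq_one]
    refine ⟨(E.filter (fun v => lam v = i)).min' hne, ?_⟩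
    have hmem := mem_filter.1 (min'_mem _ hne)
    ext v
    rw [mem_filter, mem_filter, mem_singleton]
    constructor
    · rintro ⟨⟨hv, -, hmin⟩, hvi⟩
      apply le_antisymm
      · exact hmin _ hmem.1 (by rw [hmem.2, hvi])
      · exact min'_le _ _ (mem_filter.2 ⟨hv, hvi⟩)
    · rintro rfl
      refine ⟨⟨hmem.1, by rw [hmem.2]; exact hi, ?_⟩, hmem.2⟩
      intro u hu hue
      exact min'_le _ _ (mem_filter.2 ⟨hu, by rw [hue, hmem.2]⟩)
  · unfold mu
    rw [card_eq_zero, filter_eq_empty_iff]
    intro v hv hvi
    rw [mem_filter, hvi] at hv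
    exact hi hv.2.1

open Classical in
/-- **Density of the rule.** -/
theorem dense_odd {n k N : ℕ} (hk : k % 2 = 1) (hN : 3 * k ^ 3 ≤ N ^ 2) : Dense n k 1 (9 * N) := by
  have hN0 : 0 < N := by
    rcases Nat.eq_zero_or_pos N with h | h
    · subst h
      have : 0 < k ^ 3 := by
        have : 0 < k := by omega
        positivity
      omega
    · exact h
  have : NeZero N := ⟨hN0.ne'⟩
  let Ω : Type := (Fin n → Fin N) × ZMod N × ZMod 3 × (Finset (Fin n) → ZMod 2)
  have hP : ∀ (ω : Ω) (S : Finset (Fin n)), S.card = k + 1 →
      (S.filter (fun v => Edge (nlam ω.1) N ω.2.1 ω.2.2.1 ω.2.2.2 (S.erase v))).card = 0 ∨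
      (S.filter (fun v => Edge (nlam ω.1) N ω.2.1 ω.2.2.1 ω.2.2.2 (S.erase v))).card = 2 := by
    intro ω S hS
    exact card_edges (nlam_lt ω.1) (by omega)
  have hne : Nonempty Ω := ⟨(fun _ => ⟨0, hN0⟩, 0, 0, 0)⟩
  refine ⟨Ω, inferInstance, hne, fun ω => ofFam _ (hP ω), fun x hx => ?_⟩
  set E := (range k).image x with hE
  have hEc : E.card = k := by
    rw [hE, card_image_of_injOn, card_range]
    intro a ha b hb hab
    rw [mem_coe, mem_range] at ha hb
    by_contra hne
    rcases lt_or_gt_of_ne hne with h | h
    · exact absurd hab (hx a b h hb).ne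
    · exact absurd hab.symm (hx b a h ha).ne
  have e0 : (univ.filter fun ω : Ω => (ofFam _ (hP ω)).P x = true) =
      univ.filter (fun ω : Ω => Edge (nlam ω.1) N ω.2.1 ω.2.2.1 ω.2.2.2 E) := by
    apply filter_congr
    intro ω _
    rw [ofFam_P]
    constructor
    · exact fun h => h.2
    · exact fun h => ⟨hEc, h⟩
  rw [e0]
  -- the good labellings
  set G := univ.filter (fun l : Fin n → Fin N => Good (nlam l) E) with hG
  have hgood := card_good (N := N) E (by rw [hEc]; exact hN) hN0
  rw [← hG, Fintype.card_fin] at hgood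
  set C : ℕ := Fintype.card (Finset (Fin n) → ZMod 2) with hC
  set D : (Fin n → Fin N) → Finset (Finset (Fin n) → ZMod 2) := fun l =>
    univ.filter (fun c => ∑ U ∈ trans (nlam l) E, c U = 1) with hD
  have h1 : ∑ l ∈ G, (D l).card ≤
      (univ.filter (fun ω : Ω => Edge (nlam ω.1) N ω.2.1 ω.2.2.1 ω.2.2.2 E)).card := by
    rw [← card_sigma]
    apply card_le_card_of_injOn (fun p : (_ : Fin n → Fin N) × (Finset (Fin n) → ZMod 2) =>
      ((p.1, ((∑ j ∈ range N, cnt (nlam p.1) E j / 2 : ℕ) : ZMod N),
        ((∑ d ∈ (range N).filter (fun d => mu (nlam p.1) E d = 2),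
          (1 + cnt (nlam p.1) E d / 2 % 2) : ℕ) : ZMod 3), p.2) : Ω))
    · rintro ⟨l, c⟩ hp
      rw [mem_coe, mem_sigma] at hp
      obtain ⟨hl, hc⟩ := hp
      have hl' : Good (nlam l) E := (mem_filter.1 hl).2
      have hc' : ∑ U ∈ trans (nlam l) E, c U = 1 := (mem_filter.1 hc).2
      exact mem_coe.2 (mem_filter.2 ⟨mem_univ _, ⟨hl'.1, rfl, hl'.2, rfl, hc'⟩⟩)
    · rintro ⟨l, c⟩ _ ⟨l', c'⟩ _ h
      simp only [Prod.mk.injEq] at h
      obtain ⟨h1, -, -, h2⟩ := h
      rw [h1, h2]
  have h2 : G.card * C ≤ 2 * ∑ l ∈ G, (D l).card := by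
    rw [mul_sum, ← smul_eq_mul, ← sum_const]
    apply sum_le_sum
    intro l _
    exact card_half _ (trans_nonempty _ _)
  have h3 : Fintype.card Ω = N ^ n * (N * (3 * C)) := by
    show Fintype.card ((Fin n → Fin N) × ZMod N × ZMod 3 × (Finset (Fin n) → ZMod 2)) = _
    rw [Fintype.card_prod, Fintype.card_prod, Fintype.card_prod, Fintype.card_fun,
      Fintype.card_fin, ZMod.card, ZMod.card, Fintype.card_fin]
  rw [h3]
  set F := (univ.filter (fun ω : Ω => Edge (nlam ω.1) N ω.2.1 ω.2.2.1 ω.2.2.2 E)).card with hF
  have h4 : N ^ n * C ≤ 3 * F := by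
    have a1 : 2 * (N ^ n * C) ≤ 2 * (3 * F) := by
      calc 2 * (N ^ n * C) = (2 * N ^ n) * C := by ring
        _ ≤ (3 * G.card) * C := Nat.mul_le_mul_right _ hgood
        _ = 3 * (G.card * C) := by ring
        _ ≤ 3 * (2 * ∑ l ∈ G, (D l).card) := Nat.mul_le_mul_left _ h2
        _ ≤ 3 * (2 * F) := Nat.mul_le_mul_left _ (Nat.mul_le_mul_left _ h1)
        _ = 2 * (3 * F) := by ring
    omega
  calc 1 * (N ^ n * (N * (3 * C))) = 3 * N * (N ^ n * C) := by ring
    _ ≤ 3 * N * (3 * F) := Nat.mul_le_mul_left _ h4
    _ = 9 * N * F := by ring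

end Pool.Agent.H56.ZK
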